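import Pool.Agent.Helper61_Idx.CFam

/-!
# Groups with indexed word problem contain few independent commuting elements

If the word problem of `G` is indexed, then for `M ≥ C` commuting families of `J` elements of
length at most `ℓ` with `J ^ M` different products the number `J ^ M` is at most a polynomial
(of fixed degree) in `M * ℓ`.
-/

set_option autoImplicit false

namespace Pool.Agent.Results.MP_429423_al.CommutingFamilies

/-- Let `G` be a finitely generated group whose word problem is an indexed language. There is a
constant `C` such that for all `M ≥ C`, all `J`, `ℓ` and all families `y i`, `i < M`, of `J`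
elements of length at most `ℓ`: if elements of different families commute and the `J ^ M`
products `y 0 (x 0) * ... * y (M - 1) (x (M - 1))` are distinct, then
`J ^ M ≤ (M * ℓ + C) ^ C`. -/
theorem result (G : Type) [Group G] (ι : Type) [Fintype ι] (g : ι → G)
    (_hgen : Subgroup.closure (Set.range g) = ⊤)
    (hidx : Pool.Agent.Idx.IsIndexed (Pool.Agent.Idx.WP g)) :
    ∃ C : ℕ, ∀ (M J ℓ : ℕ) (y : Fin M → Fin J → G), C ≤ M →
      (∀ i a, ∃ w : List (ι ⊕ ι), w.length ≤ ℓ ∧
        (w.map (Sum.elim g (fun i => (g i)⁻¹))).prod = y i a) →
      (∀ i j, i ≠ j → ∀ a b, Commute (y i a) (y j b)) →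
      (Function.Injective fun x : Fin M → Fin J => (List.ofFn (fun i => y i (x i))).prod) →
      J ^ M ≤ (M * ℓ + C) ^ C := by
  obtain ⟨C, hC⟩ := Pool.Agent.Idx.C.families g hidx
  exact ⟨C, fun M J ℓ y hM hw hc hinj => hC M J ℓ y hM hw (fun i j h a b => hc i j h a b)
    (fun x x' e => hinj e)⟩

end Pool.Agent.Results.MP_429423_al.CommutingFamilies
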