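import Pool.Agent.Helper85_Idx.AsmII

/-!
# Groups with indexed word problem: differences of a free submonoid do not commute
-/

set_option autoImplicit false

namespace Pool.Agent.Results.MP_429423_al.NoCommutingDifferences

/-- Let `G` be a finitely generated group whose word problem is an indexed language and let
`a, b` generate a free submonoid of rank two. Then the elements `u a ^ (-|u|)`, where `u` runs
over the words in `a, b`, do not all commute with each other. -/
theorem result (G : Type) [Group G] (ι : Type) [Fintype ι] (g : ι → G)
    (hgen : Subgroup.closure (Set.range g) = ⊤)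
    (hidx : Pool.Agent.Idx.IsIndexed (Pool.Agent.Idx.WP g)) (a b : G)
    (hfree : Function.Injective
      (fun w : List Bool => (w.map (fun x => if x then a else b)).prod)) :
    ∃ u u' : List Bool, ¬ Commute
      ((u.map (fun x => if x then a else b)).prod * (a ^ u.length)⁻¹)
      ((u'.map (fun x => if x then a else b)).prod * (a ^ u'.length)⁻¹) :=
  Pool.Agent.Idx.H85.fin2 Pool.Agent.Idx.H48.norm Pool.Agent.Idx.H18.clos
    Pool.Agent.Idx.H85.frameFull Pool.Agent.Idx.H85.matrFull g hgen hidx a b hfree

end Pool.Agent.Results.MP_429423_al.NoCommutingDifferences
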