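import Pool.Agent.Helper85_Idx.AsmI

/-!
# Groups with indexed word problem contain no direct product of a group with a free submonoid
of rank two and the infinite cyclic group
-/

set_option autoImplicit false

namespace Pool.Agent.Results.MP_429423_al.NoFreeTimesZ

/-- Let `G` be a finitely generated group whose word problem is an indexed language, let `a, b`
generate a free submonoid of rank two and let `z` commute with `a` and `b`. Then some power
`z ^ n` with `n ≠ 0` lies in the subgroup generated by `a` and `b`. -/
theorem result (G : Type) [Group G] (ι : Type) [Fintype ι] (g : ι → G)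
    (hgen : Subgroup.closure (Set.range g) = ⊤)
    (hidx : Pool.Agent.Idx.IsIndexed (Pool.Agent.Idx.WP g)) (a b z : G)
    (hfree : Function.Injective
      (fun w : List Bool => (w.map (fun x => if x then a else b)).prod))
    (hza : Commute z a) (hzb : Commute z b) :
    ∃ n : ℤ, n ≠ 0 ∧ z ^ n ∈ Subgroup.closure ({a, b} : Set G) :=
  Pool.Agent.Idx.H85.fin1 Pool.Agent.Idx.H48.norm Pool.Agent.Idx.H18.clos
    Pool.Agent.Idx.H85.frameFull Pool.Agent.Idx.H85.treeFull g hgen hidx a b z hfree hza hzb

end Pool.Agent.Results.MP_429423_al.NoFreeTimesZ
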