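import Pool.Agent.Helper4_Idx.Fchi
import Pool.Agent.Helper13_Z3.Fin
import Pool.Agent.Helper13_Z3.Hvy
import Pool.Agent.Helper18_Idx.Bhol
import Pool.Agent.Helper18_Idx.Clos
import Pool.Agent.Helper20_Z3.Geo
import Pool.Agent.Helper20_Z3.Grp
import Pool.Agent.Helper20_Z3.Win
import Pool.Agent.Helper29_Z3.Cvl
import Pool.Agent.Helper46_Z3.Gap
import Pool.Agent.Helper48_Idx.Norm
import Pool.Agent.Helper48_Z3.Node
import Pool.Agent.Helper86_Z3.Few

/-!
# Groups with indexed word problem contain no free abelian group of rank three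
-/

set_option autoImplicit false

namespace Pool.Agent.Results.MP_429423_al.NoZCubed

/-- Let `G` be a finitely generated group whose word problem is an indexed language. Any three
elements of `G` that commute with each other satisfy a nontrivial relation
`a ^ i * b ^ j * c ^ l = 1`. -/
theorem result (G : Type) [Group G] (ι : Type) [Fintype ι] (g : ι → G)
    (hgen : Subgroup.closure (Set.range g) = ⊤)
    (hidx : Pool.Agent.Idx.IsIndexed (Pool.Agent.Idx.WP g)) (a b c : G)
    (hab : Commute a b) (hac : Commute a c) (hbc : Commute b c) :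
    ∃ i j l : ℤ, a ^ i * b ^ j * c ^ l = 1 ∧ (i ≠ 0 ∨ j ≠ 0 ∨ l ≠ 0) :=
  Pool.Agent.Z3.H13.final Pool.Agent.Z3.H20.geo
    (Pool.Agent.Z3.H48.node Pool.Agent.Z3.H29.cvl Pool.Agent.Z3.H46.gap Pool.Agent.Z3.H20.geo
      (Pool.Agent.Z3.H20.win Pool.Agent.Z3.H29.cvl Pool.Agent.Z3.H20.geo)
      (Pool.Agent.Z3.H86.few Pool.Agent.Z3.H29.cvl Pool.Agent.Z3.H20.geo Pool.Agent.Idx.H18.bhol
        Pool.Agent.Idx.H4.fchi) Pool.Agent.Idx.H4.fchi)
    (Pool.Agent.Z3.H13.hvy Pool.Agent.Z3.H29.cvl)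
    (Pool.Agent.Z3.H20.grp Pool.Agent.Idx.H48.norm Pool.Agent.Idx.H18.clos)
    G inferInstance ι g hgen hidx a b c hab hac hbc

end Pool.Agent.Results.MP_429423_al.NoZCubed
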